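import Mathlib

set_option autoImplicit false

namespace Pool.Agent.H.MP_d29ee2_al

universe u

structure Idx (G : Type u) [Group G] [LinearOrder G] where
  H : Type u
  [grp : Group H]
  [ord : LinearOrder H]
  [ml : MulLeftMono H]
  [mr : MulRightMono H]
  j : G →* H
  inj : Function.Injective j
  mono : Monotone j
  div : ∀ (d : H) (n : ℕ), 0 < n → ∃ x : H, x ^ n = d

attribute [instance] Idx.grp Idx.ord Idx.ml Idx.mr

inductive Term (G : Type u) : Type u
  | of : G → Term G
  | mul : Term G → Term G → Term G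
  | inv : Term G → Term G
  | root : ℕ → Term G → Term G

variable {G : Type u} [Group G] [LinearOrder G]

noncomputable def Term.eval : Term G → ∀ i : Idx G, i.H
  | .of g => fun i => i.j g
  | .mul s t => s.eval * t.eval
  | .inv s => s.eval⁻¹
  | .root n s => fun i => Classical.choose (i.div (s.eval i) (n + 1) n.succ_pos)

lemma root_pow (n : ℕ) (s : Term G) : (Term.root n s).eval ^ (n + 1) = s.eval := by
  funext i
  exact Classical.choose_spec (i.div (s.eval i) (n + 1) n.succ_pos)

noncomputable def K0 (G : Type u) [Group G] [LinearOrder G] : Subgroup (∀ i : Idx G, i.H) where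
  carrier := Set.range Term.eval
  one_mem' := ⟨.of 1, by funext i; simp [Term.eval]⟩
  mul_mem' := by rintro _ _ ⟨s, rfl⟩ ⟨t, rfl⟩; exact ⟨.mul s t, rfl⟩
  inv_mem' := by rintro _ ⟨s, rfl⟩; exact ⟨.inv s, rfl⟩

instance : Small.{u} (K0 G) := small_range (Term.eval (G := G))

noncomputable def Δ : G →* K0 G where
  toFun g := ⟨(Term.of g).eval, ⟨_, rfl⟩⟩
  map_one' := by ext i; simp [Term.eval]
  map_mul' a b := by ext i; simp [Term.eval]

theorem main (i0 : Idx G) :
    ∃ (K : Type u) (_ : Group K) (_ : LinearOrder K) (_ : MulLeftMono K) (_ : MulRightMono K)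
      (ι : G →* K), (Function.Injective ι ∧ Monotone ι ∧
        (∀ (d : K) (n : ℕ), 0 < n → ∃ x : K, x ^ n = d) ∧
        ∀ J : Subgroup K, ι.range ≤ J → (∀ (g : K) (n : ℕ), 0 < n → g ^ n ∈ J → g ∈ J) → J = ⊤) ∧
      ∀ i : Idx G, ∃ φ : K →* i.H, ∀ g, φ (ι g) = i.j g := by
  obtain ⟨lo, wf⟩ := exists_wellOrder (Idx G)
  let e : Shrink.{u} (K0 G) ≃* K0 G := Shrink.mulEquiv
  let f : Shrink.{u} (K0 G) → Lex (∀ i : Idx G, i.H) := fun k => toLex (e k).1
  have hf : Function.Injective f := fun a b h => e.injective (Subtype.ext (toLex.injective h))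
  letI ord : LinearOrder (Shrink.{u} (K0 G)) := LinearOrder.lift' f hf
  have hle : ∀ a b : Shrink.{u} (K0 G), ord.le a b ↔ f a ≤ f b := fun _ _ => Iff.rfl
  refine ⟨Shrink.{u} (K0 G), inferInstance, ord, ⟨fun c a b h => ?_⟩, ⟨fun c a b h => ?_⟩,
    e.symm.toMonoidHom.comp Δ, ⟨?_, ?_, ?_, ?_⟩, ?_⟩
  · rw [hle] at h
    rw [hle]
    rcases h.lt_or_eq with ⟨i, h1, h2⟩ | h
    · refine le_of_lt ⟨i, fun j hj => ?_, ?_⟩
      · have := h1 j hj
        simp only [f, map_mul, Pi.toLex_apply, Subgroup.coe_mul, Pi.mul_apply] at this ⊢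
        rw [this]
      · simp only [f, map_mul, Pi.toLex_apply, Subgroup.coe_mul, Pi.mul_apply] at h2 ⊢
        exact mul_lt_mul_right h2 _
    · rw [hf h]
  · rw [hle] at h
    rw [hle]
    rcases h.lt_or_eq with ⟨i, h1, h2⟩ | h
    · refine le_of_lt ⟨i, fun j hj => ?_, ?_⟩
      · have := h1 j hj
        simp only [f, Function.swap, map_mul, Pi.toLex_apply, Subgroup.coe_mul,
          Pi.mul_apply] at this ⊢
        rw [this]
      · simp only [f, Function.swap, map_mul, Pi.toLex_apply, Subgroup.coe_mul,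
          Pi.mul_apply] at h2 ⊢
        exact mul_lt_mul_left h2 _
    · rw [hf h]
  · intro a b h
    have := congrArg (fun k => (e k).1 i0) h
    exact i0.inj (by simpa [Δ, Term.eval] using this)
  · intro a b h
    change f _ ≤ f _
    apply Pi.toLex_monotone
    intro i
    simpa [Δ, Term.eval] using i.mono h
  · intro d n hn
    obtain ⟨s, hs⟩ := (e d).2
    obtain ⟨m, rfl⟩ : ∃ m, n = m + 1 := ⟨n - 1, by omega⟩
    refine ⟨e.symm ⟨(Term.root m s).eval, ⟨_, rfl⟩⟩, e.injective ?_⟩
    rw [map_pow, e.apply_symm_apply]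
    apply Subtype.ext
    rw [← hs, ← root_pow m s]; rfl
  · intro J hJ hiso
    have : ∀ s : Term G, e.symm ⟨s.eval, ⟨_, rfl⟩⟩ ∈ J := by
      intro s
      induction s with
      | of g => exact hJ ⟨g, rfl⟩
      | mul s t hs ht =>
        have := J.mul_mem hs ht
        rw [← map_mul] at this
        exact this
      | inv s hs =>
        have := J.inv_mem hs
        rw [← map_inv] at this
        exact this
      | root n s hs =>
        apply hiso _ (n + 1) n.succ_pos
        rw [← map_pow]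
        convert hs using 2
        exact Subtype.ext (root_pow n s)
    rw [eq_top_iff]
    intro k _
    obtain ⟨s, hs⟩ := (e k).2
    have h2 := this s
    have h3 : (⟨s.eval, ⟨_, rfl⟩⟩ : K0 G) = e k := Subtype.ext hs
    rwa [h3, e.symm_apply_apply] at h2
  · intro i
    refine ⟨((Pi.evalMonoidHom (fun i : Idx G => i.H) i).comp (K0 G).subtype).comp e.toMonoidHom,
      fun g => ?_⟩
    simp [Δ, Term.eval]

end Pool.Agent.H.MP_d29ee2_al
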